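import Pool.Agent.Zk25.FD46.HYP

/-!
Module BADQ for helper46: the bad moduli.
-/

set_option autoImplicit false

namespace Pool.Agent.Zk25.FD46

open Finset Pool.Agent.Zk46.FD

section fibre

/-- the number of vectors with a given sum -/
theorem card_sum_le (s : ℕ) : ∀ (r : ℕ), 1 ≤ r → ∀ u : ℕ,
    ((Fintype.piFinset fun _ : Fin r => range s).filter fun f => ∑ k, f k = u).card ≤ s ^ (r - 1) := by
  intro r hr u
  obtain ⟨r', rfl⟩ : ∃ r', r = r' + 1 := ⟨r - 1, by omega⟩
  rw [Nat.add_sub_cancel]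
  have h1 : (Fintype.piFinset fun _ : Fin r' => range s).card = s ^ r' := by
    rw [Fintype.card_piFinset, prod_const, card_range, card_univ, Fintype.card_fin]
  rw [← h1]
  refine card_le_card_of_injOn (fun f => Fin.tail f) ?_ ?_
  · intro f hf
    have hf' := (mem_filter.mp hf).1
    rw [Fintype.mem_piFinset] at hf'
    rw [mem_coe, Fintype.mem_piFinset]
    exact fun k => hf' k.succ
  · intro f hf g hg hfg
    have hf' := (mem_filter.mp hf).2
    have hg' := (mem_filter.mp hg).2
    rw [Fin.sum_univ_succ] at hf' hg'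
    have h2 : ∀ k : Fin r', f k.succ = g k.succ := fun k => congrFun hfg k
    have h3 : ∑ k : Fin r', f k.succ = ∑ k : Fin r', g k.succ := sum_congr rfl fun k _ => h2 k
    funext k
    refine Fin.cases ?_ (fun k => h2 k) k
    omega

theorem card_fibre_le (d r s : ℕ) (hr : 1 ≤ r) (u : Fin d → ℕ) :
    ((W d r s).filter fun w => ∀ j, ∑ k, w j k = u j).card ≤ s ^ ((r - 1) * d) := by
  have h1 : (W d r s).filter (fun w => ∀ j, ∑ k, w j k = u j) ⊆
      Fintype.piFinset fun j => (Fintype.piFinset fun _ : Fin r => range s).filter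
        fun f => ∑ k, f k = u j := by
    intro w hw
    rw [mem_filter] at hw
    obtain ⟨hw1, hw2⟩ := hw
    unfold W at hw1
    rw [Fintype.mem_piFinset] at hw1 ⊢
    exact fun j => mem_filter.mpr ⟨hw1 j, hw2 j⟩
  refine (card_le_card h1).trans ?_
  rw [Fintype.card_piFinset, pow_mul]
  calc ∏ j, ((Fintype.piFinset fun _ : Fin r => range s).filter fun f => ∑ k, f k = u j).card ≤
      ∏ _j : Fin d, s ^ (r - 1) := prod_le_prod' fun j _ => card_sum_le s r hr (u j)
    _ = (s ^ (r - 1)) ^ d := by rw [prod_const, card_univ, Fintype.card_fin]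

end fibre

/-- points of a small cube in one residue class -/
theorem cell (hHYP : S_HYP) (hCUBE : S_CUBE) {d : ℕ} {c : Fin d → ℕ} {q H h R : ℕ} (hd : 1 ≤ d)
    (hq : 1 ≤ q) (hh : 1 ≤ h) (hdh : d * h ≤ H) (hc : Prim c) (hg : ¬ Good c q H) (hR : 1 ≤ R)
    (hRh : R ≤ h) (hL : ∀ v : Fin d → ℤ, v ≠ 0 → InL c q v → R ≤ nm v)
    (S : Finset (Fin d → ℤ)) (h1 : ∀ x ∈ S, ∀ y ∈ S, nm (x - y) < h)
    (h2 : ∀ x ∈ S, ∀ y ∈ S, InL c q (x - y)) :
    (S.card : ℝ) ≤ (3 * d * h / R : ℝ) ^ (d - 1) := by
  have hH : 1 ≤ H := le_trans (Nat.mul_pos hd hh) hdh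
  obtain ⟨t, ht, ht'⟩ := hHYP d c q H hd hq hH hc hg
  refine hCUBE d t R h ht hR hRh S h1 (fun x hx y hy => ?_) fun x hx y hy hxy => ?_
  · have h3 := ht' (x - y) (h2 x hx y hy)
      ((Nat.mul_le_mul_left d (h1 x hx y hy).le).trans hdh)
    exact h3
  · exact hL _ (sub_ne_zero.mpr hxy) (h2 x hx y hy)

theorem nm_lt {d : ℕ} {v : Fin d → ℤ} {h : ℕ} (hh : 1 ≤ h) (hv : ∀ j, |v j| < h) : nm v < h := by
  unfold nm
  rw [Finset.sup_lt_iff (by exact hh)]
  intro j _
  have h1 := hv j
  rw [Int.abs_eq_natAbs] at h1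
  exact_mod_cast h1

theorem t_BADQ (hHYP : S_HYP) (hCUBE : S_CUBE) : S_BADQ := by
  classical
  intro d r s c n0 q H h R hd hr hs hq hh hdh hc hg hR hRh hL
  set N : ℝ := (3 * d * h / R : ℝ) ^ (d - 1) with hN
  have hN0 : 0 ≤ N := by positivity
  have hcell := cell hHYP hCUBE hd hq hh hdh hc hg hR hRh hL
  have hcell' : ∀ S : Finset (Fin d → ℤ), (∀ x ∈ S, ∀ y ∈ S, nm (x - y) < h) →
      (∀ x ∈ S, ∀ y ∈ S, InL c q (x - y)) → S.card ≤ ⌊N⌋₊ := fun S h1 h2 =>
    Nat.le_floor (hcell S h1 h2)
  constructor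
  · -- the vectors of digit sums
    let ψ : (Fin d → Fin r → ℕ) → (Fin d → ℕ) := fun w j => ∑ k, w j k
    set T := (W d r s).filter fun w => q ∣ val c n0 w with hT
    have hA : T.card ≤ s ^ ((r - 1) * d) * (T.image ψ).card := by
      refine card_le_mul_card_image T _ fun u _ => ?_
      refine le_trans (card_le_card ?_) (card_fibre_le d r s hr u)
      intro w hw
      rw [mem_filter] at hw ⊢
      exact ⟨(mem_filter.mp hw.1).1, fun j => congrFun hw.2 j⟩
    -- the cells
    let κ : (Fin d → ℕ) → (Fin d → ℕ) := fun u j => u j / h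
    have hB : (T.image ψ).card ≤ ⌊N⌋₊ * ((T.image ψ).image κ).card := by
      refine card_le_mul_card_image _ _ fun b _ => ?_
      -- cast to `ℤ`
      let ι : (Fin d → ℕ) → (Fin d → ℤ) := fun u j => (u j : ℤ)
      have hι : Function.Injective ι := by
        intro u u' huu
        funext j
        have h0 : ((u j : ℕ) : ℤ) = ((u' j : ℕ) : ℤ) := congrFun huu j
        exact_mod_cast h0
      rw [← card_image_of_injective _ hι]
      refine hcell' _ (fun x hx y hy => ?_) fun x hx y hy => ?_
      · obtain ⟨u, hu, rfl⟩ := mem_image.mp hx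
        obtain ⟨u', hu', rfl⟩ := mem_image.mp hy
        have h1 := (mem_filter.mp hu).2
        have h2 := (mem_filter.mp hu').2
        refine nm_lt hh fun j => ?_
        change |(u j : ℤ) - (u' j : ℤ)| < h
        have h3 : u j / h = b j := congrFun h1 j
        have h4 : u' j / h = b j := congrFun h2 j
        have h5 := Nat.div_add_mod (u j) h
        have h6 := Nat.div_add_mod (u' j) h
        have h7 := Nat.mod_lt (u j) hh
        have h8 := Nat.mod_lt (u' j) hh
        rw [h3] at h5
        rw [h4] at h6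
        rw [abs_lt]
        constructor
        · have : (u' j : ℤ) < u j + h := by exact_mod_cast (by omega : u' j < u j + h)
          linarith
        · have : (u j : ℤ) < u' j + h := by exact_mod_cast (by omega : u j < u' j + h)
          linarith
      · obtain ⟨u, hu, rfl⟩ := mem_image.mp hx
        obtain ⟨u', hu', rfl⟩ := mem_image.mp hy
        have h1 := (mem_filter.mp hu).1
        have h2 := (mem_filter.mp hu').1
        obtain ⟨w, hw, rfl⟩ := mem_image.mp h1
        obtain ⟨w', hw', rfl⟩ := mem_image.mp h2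
        have h3 : ((q : ℕ) : ℤ) ∣ ((val c n0 w : ℕ) : ℤ) :=
          Int.natCast_dvd_natCast.mpr (mem_filter.mp hw).2
        have h4 : ((q : ℕ) : ℤ) ∣ ((val c n0 w' : ℕ) : ℤ) :=
          Int.natCast_dvd_natCast.mpr (mem_filter.mp hw').2
        have h5 := dvd_sub h3 h4
        have h6 : ((Pool.Agent.Zk46.FD.val c n0 w : ℕ) : ℤ) - ((Pool.Agent.Zk46.FD.val c n0 w' : ℕ) : ℤ) =
            ∑ j, (c j : ℤ) * ((ι (ψ w) - ι (ψ w')) j) := by
          have h7 : ∀ j, (ι (ψ w) - ι (ψ w')) j = ((∑ k, w j k : ℕ) : ℤ) - ((∑ k, w' j k : ℕ) : ℤ) :=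
            fun j => rfl
          unfold Pool.Agent.Zk46.FD.val
          simp only [h7]
          push_cast
          rw [add_sub_add_left_eq_sub, ← sum_sub_distrib]
          exact sum_congr rfl fun j _ => by ring
        unfold InL
        rw [← h6]
        exact h5
    have hC : (((T.image ψ).image κ).card : ℝ) ≤ ((r : ℝ) * s / h + 1) ^ d := by
      have h1 : (T.image ψ).image κ ⊆ Fintype.piFinset fun _ : Fin d => range (r * s / h + 1) := by
        intro b hb
        obtain ⟨u, hu, rfl⟩ := mem_image.mp hb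
        obtain ⟨w, hw, rfl⟩ := mem_image.mp hu
        rw [Fintype.mem_piFinset]
        intro j
        rw [mem_range]
        have hw1 := (mem_filter.mp hw).1
        unfold W at hw1
        rw [Fintype.mem_piFinset] at hw1
        have hw2 := hw1 j
        rw [Fintype.mem_piFinset] at hw2
        have h2 : ∑ k, w j k ≤ r * s := by
          calc ∑ k, w j k ≤ ∑ _k : Fin r, s := sum_le_sum fun k _ => (mem_range.mp (hw2 k)).le
            _ = r * s := by rw [sum_const, card_univ, Fintype.card_fin, smul_eq_mul]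
        have h3 : (∑ k, w j k) / h ≤ r * s / h := Nat.div_le_div_right h2
        change (∑ k, w j k) / h < _
        omega
      have h2 := card_le_card h1
      rw [Fintype.card_piFinset, prod_const, card_range, card_univ, Fintype.card_fin] at h2
      have h3 : (((T.image ψ).image κ).card : ℝ) ≤ ((r * s / h + 1 : ℕ) : ℝ) ^ d := by
        exact_mod_cast h2
      refine h3.trans (pow_le_pow_left₀ (by positivity) ?_ d)
      push_cast
      have h4 : ((r * s / h : ℕ) : ℝ) ≤ (r * s : ℕ) / (h : ℝ) := Nat.cast_div_le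
      push_cast at h4
      linarith
    have hA' : (T.card : ℝ) ≤ (s : ℝ) ^ ((r - 1) * d) * ((T.image ψ).card : ℝ) := by
      exact_mod_cast hA
    have hB' : ((T.image ψ).card : ℝ) ≤ N * (((T.image ψ).image κ).card : ℝ) := by
      have h1 : ((T.image ψ).card : ℝ) ≤ (⌊N⌋₊ : ℝ) * (((T.image ψ).image κ).card : ℝ) := by
        exact_mod_cast hB
      exact h1.trans (mul_le_mul_of_nonneg_right (Nat.floor_le hN0) (Nat.cast_nonneg _))
    have hgoal : cnt c n0 r s q = (T.card : ℝ) := rfl
    rw [hgoal]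
    calc (T.card : ℝ) ≤ (s : ℝ) ^ ((r - 1) * d) * ((T.image ψ).card : ℝ) := hA'
      _ ≤ (s : ℝ) ^ ((r - 1) * d) * (N * ((r : ℝ) * s / h + 1) ^ d) := by
          refine mul_le_mul_of_nonneg_left ?_ (by positivity)
          exact hB'.trans (mul_le_mul_of_nonneg_left hC hN0)
      _ = _ := by ring
  · -- the box
    let B : Finset (Fin d → ℤ) := Fintype.piFinset fun _ => Ico (0 : ℤ) h
    have hBc : B.card = h ^ d := by
      rw [Fintype.card_piFinset, prod_const, card_univ, Fintype.card_fin, Int.card_Ico]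
      simp
    let ρ : (Fin d → ℤ) → ℤ := fun v => (∑ j, (c j : ℤ) * v j) % q
    have h1 : B.card ≤ ⌊N⌋₊ * (B.image ρ).card := by
      refine card_le_mul_card_image _ _ fun b _ => ?_
      refine hcell' _ (fun x hx y hy => ?_) fun x hx y hy => ?_
      · have hx' := (mem_filter.mp hx).1
        have hy' := (mem_filter.mp hy).1
        rw [Fintype.mem_piFinset] at hx' hy'
        refine nm_lt hh fun j => ?_
        have h2 := mem_Ico.mp (hx' j)
        have h3 := mem_Ico.mp (hy' j)
        change |x j - y j| < h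
        rw [abs_lt]
        constructor <;> linarith
      · have hx' : ρ x = b := (mem_filter.mp hx).2
        have hy' : ρ y = b := (mem_filter.mp hy).2
        have h2 : (∑ j, (c j : ℤ) * x j) % q = (∑ j, (c j : ℤ) * y j) % q := hx'.trans hy'.symm
        have h3 := Int.ModEq.dvd (show (∑ j, (c j : ℤ) * y j) ≡ (∑ j, (c j : ℤ) * x j) [ZMOD q] from
          h2.symm)
        unfold InL
        convert h3 using 1
        rw [← sum_sub_distrib]
        exact sum_congr rfl fun j _ => by rw [Pi.sub_apply]; ring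
    have hq0 : (0 : ℤ) < q := by exact_mod_cast hq
    have h2 : (B.image ρ).card ≤ q := by
      have h3 : B.image ρ ⊆ Ico (0 : ℤ) q := by
        intro b hb
        obtain ⟨v, -, rfl⟩ := mem_image.mp hb
        exact mem_Ico.mpr ⟨Int.emod_nonneg _ hq0.ne', Int.emod_lt_of_pos _ hq0⟩
      have h4 := card_le_card h3
      rw [Int.card_Ico] at h4
      simpa using h4
    have h3 : ((B.card : ℕ) : ℝ) ≤ (⌊N⌋₊ : ℝ) * ((B.image ρ).card : ℝ) := by exact_mod_cast h1
    have h4 : ((B.image ρ).card : ℝ) ≤ q := by exact_mod_cast h2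
    calc (h : ℝ) ^ d = ((B.card : ℕ) : ℝ) := by rw [hBc]; push_cast; rfl
      _ ≤ (⌊N⌋₊ : ℝ) * ((B.image ρ).card : ℝ) := h3
      _ ≤ N * q := by
          refine mul_le_mul (Nat.floor_le hN0) h4 (Nat.cast_nonneg _) hN0
      _ = q * N := mul_comm _ _

end Pool.Agent.Zk25.FD46
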