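import Pool.Agent.Zk46.FD.Defs

/-!
Module HYP for helper46: short vectors of the lattice of a bad modulus are in a hyperplane.
-/

set_option autoImplicit false

namespace Pool.Agent.Zk25.FD46

open Finset Pool.Agent.Zk46.FD

theorem le_nm {d : ℕ} (v : Fin d → ℤ) (j : Fin d) : (v j).natAbs ≤ nm v :=
  Finset.le_sup (f := fun j => (v j).natAbs) (mem_univ j)

theorem t_HYP : S_HYP := by
  intro d c q H hd hq hH hc hg
  unfold Good at hg
  push Not at hg
  obtain ⟨a, ha1, haq, ha⟩ := hg
  choose m hm using ha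
  refine ⟨fun j => (a : ℤ) * c j - m j * q, ?_, ?_⟩
  · intro h0
    -- `q` divides `a`
    have h1 : ∀ j, q ∣ a * c j := by
      intro j
      have h2 : (a : ℤ) * c j - m j * q = 0 := congrFun h0 j
      have h3 : (q : ℤ) ∣ ((a * c j : ℕ) : ℤ) := by
        refine ⟨m j, ?_⟩
        push_cast
        linarith
      exact Int.natCast_dvd_natCast.mp h3
    have hgcd : 0 < Nat.gcd q a := Nat.gcd_pos_of_pos_left _ (by omega)
    have h4 : ∀ j, q / Nat.gcd q a ∣ c j := by
      intro j
      have h5 : Nat.Coprime (q / Nat.gcd q a) (a / Nat.gcd q a) := Nat.coprime_div_gcd_div_gcd hgcd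
      refine h5.dvd_of_dvd_mul_left ?_
      have h6 : q / Nat.gcd q a * Nat.gcd q a ∣ a / Nat.gcd q a * c j * Nat.gcd q a := by
        rw [Nat.div_mul_cancel (Nat.gcd_dvd_left q a), mul_right_comm,
          Nat.div_mul_cancel (Nat.gcd_dvd_right q a)]
        exact h1 j
      exact Nat.dvd_of_mul_dvd_mul_right hgcd h6
    have h7 := hc _ h4
    have h8 : Nat.gcd q a = q := by
      have h9 := Nat.div_mul_cancel (Nat.gcd_dvd_left q a)
      rw [h7, one_mul] at h9
      exact h9
    have h10 : q ∣ a := h8 ▸ Nat.gcd_dvd_right q a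
    have := Nat.le_of_dvd (by omega) h10
    omega
  · intro v hv hvH
    have hsum : ∑ j, ((a : ℤ) * c j - m j * q) * v j =
        a * (∑ j, (c j : ℤ) * v j) - q * ∑ j, m j * v j := by
      rw [Finset.mul_sum, Finset.mul_sum, ← Finset.sum_sub_distrib]
      exact Finset.sum_congr rfl fun j _ => by ring
    have hdvd : (q : ℤ) ∣ ∑ j, ((a : ℤ) * c j - m j * q) * v j := by
      rw [hsum]
      exact dvd_sub (Dvd.dvd.mul_left hv _) (dvd_mul_right _ _)
    refine Int.eq_zero_of_abs_lt_dvd hdvd ?_
    rcases Nat.eq_zero_or_pos (nm v) with h0 | h0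
    · have h1 : ∀ j, v j = 0 := by
        intro j
        have := le_nm v j
        omega
      rw [Finset.sum_eq_zero fun j _ => by rw [h1 j, mul_zero], abs_zero]
      exact_mod_cast hq
    · have hHpos : (0 : ℤ) < H := by exact_mod_cast hH
      refine lt_of_mul_lt_mul_left ?_ hHpos.le
      have h2 : (H : ℤ) * |∑ j, ((a : ℤ) * c j - m j * q) * v j| ≤
          ∑ j, H * |(a : ℤ) * c j - m j * q| * nm v := by
        rw [Finset.sum_congr rfl fun j _ => mul_assoc (H : ℤ) _ _, ← Finset.mul_sum]
        refine mul_le_mul_of_nonneg_left ?_ hHpos.le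
        refine (Finset.abs_sum_le_sum_abs _ _).trans ?_
        refine Finset.sum_le_sum fun j _ => ?_
        rw [abs_mul]
        refine mul_le_mul_of_nonneg_left ?_ (abs_nonneg _)
        have := le_nm v j
        rw [Int.abs_eq_natAbs]
        exact_mod_cast this
      have h3 : ∑ j, (H : ℤ) * |(a : ℤ) * c j - m j * q| * nm v < ∑ _j : Fin d, (q : ℤ) * nm v := by
        refine Finset.sum_lt_sum_of_nonempty ⟨⟨0, hd⟩, mem_univ _⟩ fun j _ => ?_
        have h4 : (0 : ℤ) < nm v := by exact_mod_cast h0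
        exact mul_lt_mul_of_pos_right (hm j) h4
      have h5 : ∑ _j : Fin d, (q : ℤ) * nm v = d * ((q : ℤ) * nm v) := by
        rw [Finset.sum_const, card_univ, Fintype.card_fin, nsmul_eq_mul]
      have h6 : (d : ℤ) * nm v ≤ H := by exact_mod_cast hvH
      have h7 : (0 : ℤ) ≤ q := by positivity
      calc (H : ℤ) * |∑ j, ((a : ℤ) * c j - m j * q) * v j| < d * ((q : ℤ) * nm v) := by
            rw [← h5]; exact lt_of_le_of_lt h2 h3
        _ = q * (d * nm v) := by ring
        _ ≤ q * H := mul_le_mul_of_nonneg_left h6 h7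
        _ = H * q := by ring

end Pool.Agent.Zk25.FD46
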